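import Mathlib

/-! Definitions for the statement on the cubic threefold locus under the theta constant map. -/

namespace Pool.Agent.P.MP_abfee5_ag

open Complex MvPolynomial

/-- Complex 5 by 5 arrays. -/
abbrev Mat : Type := Fin 5 → Fin 5 → ℂ

/-- The Siegel upper half-space of degree 5: symmetric, imaginary part positive definite. -/
def Siegel : Set Mat :=
  {τ | (∀ j k, τ j k = τ k j) ∧
    ∀ x : Fin 5 → ℝ, x ≠ 0 → 0 < ∑ j, ∑ k, x j * (τ j k).im * x k}

/-- The theta function with real characteristics `a`, `b`. -/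
noncomputable def theta (a b : Fin 5 → ℝ) (τ : Mat) (z : Fin 5 → ℂ) : ℂ :=
  ∑' n : Fin 5 → ℤ,
    cexp (Real.pi * I * ∑ j, ∑ k, ((n j : ℂ) + a j) * τ j k * ((n k : ℂ) + a k)
      + 2 * Real.pi * I * ∑ j, ((n j : ℂ) + a j) * (z j + b j))

/-- Vectors over the field with two elements: `ε` stands for the class of `ε / 2`. -/
abbrev F2 : Type := Fin 5 → ZMod 2

/-- The half-integer vector with entries `0` or `1 / 2` given by `ε`. -/
noncomputable def half (ε : F2) : Fin 5 → ℝ := fun j => ((ε j).val : ℝ) / 2

/-- The second order theta constants: the homogeneous coordinates of `Th τ`. -/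
noncomputable def Th (τ : Mat) : F2 → ℂ := fun ε => theta (half ε) 0 ((2 : ℂ) • τ) 0

/-- Half-integer theta characteristics. -/
abbrev Ch : Type := F2 × F2

/-- The theta function with half-integer characteristic `m`. -/
noncomputable def thetaC (m : Ch) (τ : Mat) (z : Fin 5 → ℂ) : ℂ :=
  theta (half m.1) (half m.2) τ z

/-- The parity of a characteristic: `0` even, `1` odd. -/
def parity (m : Ch) : ZMod 2 := ∑ j, m.1 j * m.2 j

/-- The period matrices at which the gradient of `thetaC m` at the origin vanishes and no even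
theta constant vanishes. -/
def Loc (m : Ch) : Set Mat :=
  {τ | τ ∈ Siegel ∧ fderiv ℂ (thetaC m τ) 0 = 0 ∧ ∀ n : Ch, parity n = 0 → thetaC n τ 0 ≠ 0}

/-- The affine cone over the image of `S` under `Th`. -/
def cone (S : Set Mat) : Set (F2 → ℂ) := {x | ∃ τ ∈ S, ∃ c : ℂ, x = c • Th τ}

/-- The quadric whose value at `Th τ` is the square of the theta constant `n`. -/
noncomputable def Q (n : Ch) : MvPolynomial F2 ℂ :=
  ∑ σ : F2, (-1) ^ (∑ j, σ j * n.2 j).val * X σ * X (σ + n.1)

/-- Ten even characteristics such that every triple `m, n i, n j` is azygetic. -/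
def IsFrame (m : Ch) (n : Fin 10 → Ch) : Prop :=
  (∀ i, parity (n i) = 0) ∧
    ∀ i j, i ≠ j → parity m + parity (n i) + parity (n j) + parity (m + n i + n j) = 1

/-- The binomial of degree 20 of a frame. -/
noncomputable def binom (n : Fin 10 → Ch) : MvPolynomial F2 ℂ :=
  ∏ i, Q (n i) - ∏ i, Q (n i + ∑ j, n j)

/-- The ideal generated by the binomials of all frames of `m`. -/
noncomputable def J (m : Ch) : Ideal (MvPolynomial F2 ℂ) :=
  Ideal.span {f | ∃ n, IsFrame m n ∧ f = binom n}

end Pool.Agent.P.MP_abfee5_ag
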